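import Pool.Agent.Hyp.AllM

/-!
# MP_05cdc8_an: the hyperbolic cross maximal function over all dyadic scales

For every `Φ ∈ C_c^∞(ℝ)` there is a constant `C` such that for every `f ∈ L²(ℝ²)` the full maximal
function `M f = sup over k ∈ ℤ of |T_{2^k} f|` satisfies
`∫ |M f|² ≤ C ∫ w(ξ)^8 |f̂(ξ)|² dξ`, `w(ξ) = log (e + log (e + |log (ξ₁² ξ₂²)|))`.
-/

set_option autoImplicit false

namespace Pool.Agent.Results.MP_05cdc8_an.AllScales

open MeasureTheory FourierTransform Pool.Agent.Hyp ENNReal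

/-- the plane `ℝ²` -/
abbrev Plane := EuclideanSpace ℝ (Fin 2)

/-- the space `L²(ℝ²)` of complex valued functions -/
noncomputable abbrev L2 : Type := Lp ℂ 2 (volume : Measure Plane)

/-- the values of an element of `L²(ℝ²)` (a representative) -/
noncomputable def val (f : L2) (x : Plane) : ℂ := f x

/-- the Fourier transform on `L²(ℝ²)` -/
noncomputable def hat (f : L2) : L2 := 𝓕 f

/-- the inverse Fourier transform on `L²(ℝ²)` -/
noncomputable def unhat (f : L2) : L2 := 𝓕⁻ f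

/-- `u` is square integrable -/
def IsL2 (u : Plane → ℂ) : Prop := MemLp u 2 volume

/-- the element of `L²(ℝ²)` given by a square integrable function -/
noncomputable def ofFun (u : Plane → ℂ) (h : IsL2 u) : L2 := MemLp.toLp u h

/-- the symbol `m_t(ξ) = Φ(ξ₁² ξ₂² / t)` -/
noncomputable def symbol (Φ : ℝ → ℂ) (t : ℝ) (ξ : Plane) : ℂ := Φ (ξ 0 ^ 2 * ξ 1 ^ 2 / t)

/-- the product `m_t f̂` -/
noncomputable def prod (Φ : ℝ → ℂ) (t : ℝ) (f : L2) (ξ : Plane) : ℂ :=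
  symbol Φ t ξ * val (hat f) ξ

open Classical in
/-- the multiplier operator `T_t` on `L²(ℝ²)`: the inverse Fourier transform of `m_t f̂` -/
noncomputable def T (Φ : ℝ → ℂ) (t : ℝ) (f : L2) : L2 :=
  if h : IsL2 (prod Φ t f) then unhat (ofFun (prod Φ t f) h) else 0

/-- the full maximal function `M f(x) = sup over k ∈ ℤ of |T_{2^k} f(x)|`, a number in `[0, ∞]` -/
noncomputable def M (Φ : ℝ → ℂ) (f : L2) (x : Plane) : ℝ≥0∞ :=
  ⨆ k : ℤ, ‖val (T Φ (2 ^ k) f) x‖ₑ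

/-- the weight `log (e + log (e + |log (ξ₁² ξ₂²)|))` -/
noncomputable def weight (ξ : Plane) : ℝ :=
  Real.log (Real.exp 1 + Real.log (Real.exp 1 + |Real.log (ξ 0 ^ 2 * ξ 1 ^ 2)|))

/-- the integral of the square -/
noncomputable def intSq (u : Plane → ℝ≥0∞) : ℝ≥0∞ := ∫⁻ x, u x ^ 2

/-- the weighted integral `∫ w(ξ)^8 |f̂(ξ)|² dξ` -/
noncomputable def wInt (f : L2) : ℝ≥0∞ :=
  ∫⁻ ξ : Plane, ENNReal.ofReal (weight ξ ^ 8) * ‖val (hat f) ξ‖ₑ ^ 2

theorem result (Φ : ℝ → ℂ) (hΦ : ContDiff ℝ (⊤ : ℕ∞) Φ) (hc : HasCompactSupport Φ) :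
    ∃ C : ℝ, ∀ f : L2, intSq (M Φ f) ≤ ENNReal.ofReal C * wInt f := by
  obtain ⟨C, _, h⟩ := all_main hΦ hc
  exact ⟨C, fun f => h f⟩

end Pool.Agent.Results.MP_05cdc8_an.AllScales
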