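import Pool.Agent.Hyp.MainT

/-!
# MP_05cdc8_an: the hyperbolic cross maximal function over finitely many dyadic scales

For every `Φ ∈ C_c^∞(ℝ)` there is a constant `C` such that for every finite set `K` of integers and
every `f ∈ L²(ℝ²)` the maximal function `max over k ∈ K of |T_{2^k} f|` has `L²` norm at most
`C (1 + log log (#K + 3))^4 ‖f‖`.
-/

set_option autoImplicit false

namespace Pool.Agent.Results.MP_05cdc8_an.LogLog

open MeasureTheory FourierTransform Pool.Agent.Hyp ENNReal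

/-- the plane `ℝ²` -/
abbrev Plane := EuclideanSpace ℝ (Fin 2)

/-- the space `L²(ℝ²)` of complex valued functions -/
noncomputable abbrev L2 : Type := Lp ℂ 2 (volume : Measure Plane)

/-- the values of an element of `L²(ℝ²)` (a representative) -/
noncomputable def val (f : L2) (x : Plane) : ℂ := f x

/-- the Fourier transform on `L²(ℝ²)` -/
noncomputable def hat (f : L2) : L2 := 𝓕 f

/-- the inverse Fourier transform on `L²(ℝ²)` -/
noncomputable def unhat (f : L2) : L2 := 𝓕⁻ f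

/-- `u` is square integrable -/
def IsL2 (u : Plane → ℂ) : Prop := MemLp u 2 volume

/-- the element of `L²(ℝ²)` given by a square integrable function -/
noncomputable def ofFun (u : Plane → ℂ) (h : IsL2 u) : L2 := MemLp.toLp u h

/-- the symbol `m_t(ξ) = Φ(ξ₁² ξ₂² / t)` -/
noncomputable def symbol (Φ : ℝ → ℂ) (t : ℝ) (ξ : Plane) : ℂ := Φ (ξ 0 ^ 2 * ξ 1 ^ 2 / t)

/-- the product `m_t f̂` -/
noncomputable def prod (Φ : ℝ → ℂ) (t : ℝ) (f : L2) (ξ : Plane) : ℂ :=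
  symbol Φ t ξ * val (hat f) ξ

open Classical in
/-- the multiplier operator `T_t` on `L²(ℝ²)`: the inverse Fourier transform of `m_t f̂` -/
noncomputable def T (Φ : ℝ → ℂ) (t : ℝ) (f : L2) : L2 :=
  if h : IsL2 (prod Φ t f) then unhat (ofFun (prod Φ t f) h) else 0

/-- the maximal function `max over k ∈ K of |T_{2^k} f(x)|` -/
noncomputable def maxT (Φ : ℝ → ℂ) (K : Finset ℤ) (f : L2) (x : Plane) : ℝ :=
  ⨆ k : K, ‖val (T Φ (2 ^ (k : ℤ)) f) x‖

/-- the `L²` norm of a function -/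
noncomputable def norm2 (u : Plane → ℝ) : ℝ≥0∞ := eLpNorm u 2 volume

theorem T_isT {Φ : ℝ → ℂ} {t : ℝ} {f g : L2} (hg : IsT Φ t f g) : IsT Φ t f (T Φ t f) := by
  have h : IsL2 (prod Φ t f) :=
    MemLp.ae_eq hg (Lp.memLp (𝓕 g : L2))
  unfold IsT
  have h1 : T Φ t f = 𝓕⁻ (ofFun (prod Φ t f) h) := by
    unfold T
    rw [dif_pos h]
    rfl
  have h2 : (𝓕 (T Φ t f) : L2) = ofFun (prod Φ t f) h := by
    rw [h1]
    exact FourierTransform.fourier_fourierInv_eq _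
  rw [h2]
  exact MemLp.coeFn_toLp h

theorem rate_le (N : ℕ) : ∃ r : ℕ, 1 ≤ r ∧ Real.log ((N : ℝ) + 3) ≤ Real.exp r ∧
    (r : ℝ) ≤ 1 + Real.log (Real.log ((N : ℝ) + 3)) := by
  have h3 : Real.exp 1 ≤ (N : ℝ) + 3 := by
    have h1 := Real.exp_one_lt_d9
    have h2 : (0 : ℝ) ≤ N := Nat.cast_nonneg N
    linarith
  have h1 : 1 ≤ Real.log ((N : ℝ) + 3) := by
    rw [Real.le_log_iff_exp_le (by positivity)]
    exact h3
  have h0 : 0 ≤ Real.log (Real.log ((N : ℝ) + 3)) := Real.log_nonneg h1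
  refine ⟨⌊Real.log (Real.log ((N : ℝ) + 3))⌋₊ + 1, Nat.le_add_left 1 _, ?_, ?_⟩
  · have h2 := (Nat.lt_floor_add_one (Real.log (Real.log ((N : ℝ) + 3)))).le
    have h4 := Real.exp_le_exp.mpr h2
    rw [Real.exp_log (by linarith)] at h4
    push_cast
    exact h4
  · push_cast
    have := Nat.floor_le h0
    linarith

theorem result (Φ : ℝ → ℂ) (hΦ : ContDiff ℝ (⊤ : ℕ∞) Φ) (hc : HasCompactSupport Φ) :
    ∃ C : ℝ, ∀ (K : Finset ℤ) (f : L2), norm2 (maxT Φ K f) ≤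
      ENNReal.ofReal (C * (1 + Real.log (Real.log ((K.card : ℝ) + 3))) ^ 4 * ‖f‖) := by
  obtain ⟨D, hD, h1, h2, h3⟩ := phi_bounds hΦ hc
  refine ⟨10 ^ 13 * D, fun K f => ?_⟩
  obtain ⟨r, hr, hK, hrle⟩ := rate_le K.card
  have hT : ∀ k ∈ K, IsT Φ (2 ^ k) f ((fun k : ℤ => T Φ (2 ^ k) f) k) := by
    intro k _
    obtain ⟨g, hg⟩ := exists_isT hΦ.continuous h1 (t := (2 : ℝ) ^ k) (by positivity) f
    exact T_isT hg
  refine (main_r hΦ hD h1 h2 h3 K r hr hK f (fun k : ℤ => T Φ (2 ^ k) f) hT).trans ?_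
  refine ENNReal.ofReal_le_ofReal ?_
  have h4 : (r : ℝ) ^ 4 ≤ (1 + Real.log (Real.log ((K.card : ℝ) + 3))) ^ 4 :=
    pow_le_pow_left₀ (Nat.cast_nonneg r) hrle 4
  have h5 : 0 ≤ ‖f‖ := norm_nonneg f
  gcongr

end Pool.Agent.Results.MP_05cdc8_an.LogLog
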