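import Pool.Agent.Hyp.RzH

/-!
# MP_05cdc8_an: hyperbolic Riesz means (the question of Dappa and Trebels for `p = 2`)

`H_s^λ` is the multiplier with symbol `(1 - ξ₁² ξ₂² / s²)_+ ^ λ`, `λ > 0` arbitrary.  Every
`f ∈ L²(ℝ²)` has a version `F` of `s ↦ H_s^λ f` which is continuous in `s ∈ (0, ∞)` for almost every
point, with a maximal inequality over all real `s > 0` with the weight
`w = log (e + log (e + |log (ξ₁² ξ₂²)|))` to the power `8` on the Fourier side, and with convergence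
almost everywhere to `f` as `s → ∞` if
`∫ log (e + log (e + log⁺ (ξ₁² ξ₂²)))^8 |f̂|² < ∞`.
-/

set_option autoImplicit false

namespace Pool.Agent.Results.MP_05cdc8_an.RieszMeans

open MeasureTheory FourierTransform Pool.Agent.Hyp ENNReal Filter

/-- the plane `ℝ²` -/
abbrev Plane := EuclideanSpace ℝ (Fin 2)

/-- the space `L²(ℝ²)` of complex valued functions -/
noncomputable abbrev L2 : Type := Lp ℂ 2 (volume : Measure Plane)

/-- the values of an element of `L²(ℝ²)` (a representative) -/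
noncomputable def val (f : L2) (x : Plane) : ℂ := f x

/-- the Fourier transform on `L²(ℝ²)` -/
noncomputable def hat (f : L2) : L2 := 𝓕 f

/-- the inverse Fourier transform on `L²(ℝ²)` -/
noncomputable def unhat (f : L2) : L2 := 𝓕⁻ f

/-- `u` is square integrable -/
def IsL2 (u : Plane → ℂ) : Prop := MemLp u 2 volume

/-- the element of `L²(ℝ²)` given by a square integrable function -/
noncomputable def ofFun (u : Plane → ℂ) (h : IsL2 u) : L2 := MemLp.toLp u h

/-- the symbol `(1 - ξ₁² ξ₂² / s²)_+ ^ λ` -/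
noncomputable def symbol (lam s : ℝ) (ξ : Plane) : ℝ :=
  (max (1 - ξ 0 ^ 2 * ξ 1 ^ 2 / s ^ 2) 0) ^ lam

/-- the product of the symbol and `f̂` -/
noncomputable def prod (lam s : ℝ) (f : L2) (ξ : Plane) : ℂ :=
  (symbol lam s ξ : ℂ) * val (hat f) ξ

open Classical in
/-- the hyperbolic Riesz mean `H_s^λ f`: the inverse Fourier transform of the product -/
noncomputable def H (lam s : ℝ) (f : L2) : L2 :=
  if h : IsL2 (prod lam s f) then unhat (ofFun (prod lam s f) h) else 0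

/-- the weight `log (e + log (e + |log (ξ₁² ξ₂²)|))` -/
noncomputable def weight (ξ : Plane) : ℝ :=
  Real.log (Real.exp 1 + Real.log (Real.exp 1 + |Real.log (ξ 0 ^ 2 * ξ 1 ^ 2)|))

/-- the weight `log (e + log (e + log⁺ (ξ₁² ξ₂²)))` -/
noncomputable def weightPlus (ξ : Plane) : ℝ :=
  Real.log (Real.exp 1 + Real.log (Real.exp 1 + max (Real.log (ξ 0 ^ 2 * ξ 1 ^ 2)) 0))

/-- the integral of the square -/
noncomputable def intSq (u : Plane → ℝ≥0∞) : ℝ≥0∞ := ∫⁻ x, u x ^ 2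

/-- the integral `∫ w(ξ)^8 |f̂(ξ)|² dξ` -/
noncomputable def wInt (w : Plane → ℝ) (f : L2) : ℝ≥0∞ :=
  ∫⁻ ξ : Plane, ENNReal.ofReal (w ξ ^ 8) * ‖val (hat f) ξ‖ₑ ^ 2

/-- `F` is a version of `s ↦ H_s^λ f`, continuous in `s` for almost every point -/
def IsVersion (lam : ℝ) (f : L2) (F : ℝ → Plane → ℂ) : Prop :=
  (∀ s : ℝ, 0 < s → ∀ᵐ x : Plane, F s x = val (H lam s f) x) ∧
    ∀ᵐ x : Plane, ContinuousOn (fun s => F s x) (Set.Ioi 0)

theorem result (lam : ℝ) (hlam : 0 < lam) :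
    ∃ C : ℝ, ∀ f : L2, ∃ F : ℝ → Plane → ℂ, IsVersion lam f F ∧
      intSq (fun x => ⨆ s ∈ Set.Ioi (0 : ℝ), ‖F s x‖ₑ) ≤ ENNReal.ofReal C * wInt weight f ∧
      (wInt weightPlus f < ∞ →
        ∀ᵐ x : Plane, Tendsto (fun s => F s x) atTop (nhds (val f x))) := by
  obtain ⟨A, α, h⟩ := rz_prof hlam
  obtain ⟨C, _, hC⟩ := fv_max h
  refine ⟨C, fun f => ⟨fun s x => FV (rz lam) f (s ^ 2) x, ⟨fun s hs => ?_, ?_⟩, ?_, ?_⟩⟩
  · exact fv_ae h f (by positivity : (0 : ℝ) < s ^ 2)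
  · filter_upwards [fv_cont h f] with x hx
    exact hx.comp (by fun_prop : ContinuousOn (fun s : ℝ => s ^ 2) (Set.Ioi 0)) fun s hs => by
      have hs' : (0 : ℝ) < s := hs
      exact (by positivity : (0 : ℝ) < s ^ 2)
  · refine le_trans (lintegral_mono fun x => ?_) (hC f)
    refine pow_le_pow_left' ?_ 2
    refine iSup₂_le fun s hs => ?_
    have hs' : (0 : ℝ) < s := hs
    exact le_iSup₂ (f := fun t (_ : t ∈ Set.Ioi (0 : ℝ)) => ‖FV (rz lam) f t x‖ₑ) (s ^ 2)
      (by positivity : (0 : ℝ) < s ^ 2)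
  · intro hf
    filter_upwards [fv_tend h f hf.ne] with x hx
    exact hx.comp (tendsto_pow_atTop (by norm_num))

end Pool.Agent.Results.MP_05cdc8_an.RieszMeans
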